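import Mathlib

/-!
# Zero as a sum of a bounded number of elements of a dense set of integers of both signs
-/

set_option autoImplicit false

namespace Pool.Agent.Helper22S

open Finset
open scoped Pointwise

/-- sums of `n` elements of `E` modulo `Q` (Cauchy-Davenport) -/
theorem cd {Q : ℕ} (hQ : Q.Prime) (E : Finset ℤ) (m : ℕ)
    (hm : m + 1 ≤ (E.image (fun x : ℤ => (x : ZMod Q))).card) (n : ℕ) :
    ∃ T : Finset (ZMod Q), min Q (n * m + 1) ≤ T.card ∧
      ∀ t ∈ T, ∃ l : List ℤ, l.length = n ∧ (∀ x ∈ l, x ∈ E) ∧ ((l.sum : ℤ) : ZMod Q) = t := by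
  induction n with
  | zero =>
    refine ⟨{0}, by simp, ?_⟩
    intro t ht
    rw [mem_singleton] at ht
    exact ⟨[], rfl, by simp, by simp [ht]⟩
  | succ n ih =>
    obtain ⟨T, hT, hT'⟩ := ih
    set S := E.image (fun x : ℤ => (x : ZMod Q)) with hS
    have hQ1 := hQ.one_lt
    have hTn : T.Nonempty := by
      rw [← card_pos]
      have : 0 < min Q (n * m + 1) := by
        apply lt_min hQ.pos
        omega
      omega
    have hSn : S.Nonempty := by
      rw [← card_pos]; omega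
    have h1 := ZMod.cauchy_davenport hQ hTn hSn
    refine ⟨T + S, ?_, ?_⟩
    · refine le_trans ?_ h1
      have h2 : (n + 1) * m + 1 = n * m + 1 + m := by ring
      rw [h2]
      rcases le_total Q (n * m + 1) with h | h
      · rw [min_eq_left h] at hT
        rw [min_eq_left (by omega), min_eq_left (by omega)]
      · rw [min_eq_right h] at hT
        apply min_le_min le_rfl
        omega
    · intro t ht
      obtain ⟨a, ha, b, hb, rfl⟩ := mem_add.1 ht
      obtain ⟨l, hl1, hl2, hl3⟩ := hT' a ha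
      obtain ⟨x, hx, rfl⟩ := mem_image.1 hb
      refine ⟨x :: l, by simp [hl1], ?_, ?_⟩
      · intro y hy
        rcases List.mem_cons.1 hy with rfl | h
        · exact hx
        · exact hl2 y h
      · rw [List.sum_cons, Int.cast_add, hl3, add_comm]

/-- a multiple of `Q` as a sum of `h` elements of a set of positive integers -/
theorem mult {Q L h : ℕ} (hQ : Q.Prime) (hLQ : L < Q) (hh : 1 ≤ h) (E : Finset ℤ)
    (hE : ∀ x ∈ E, 1 ≤ x ∧ x ≤ L) (hc : Q ≤ h * (E.card - 1) + 1) (hE1 : 1 ≤ E.card) :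
    ∃ l : List ℤ, l.length = h ∧ (∀ x ∈ l, x ∈ E) ∧ ∃ a : ℕ, 1 ≤ a ∧ a ≤ h ∧ l.sum = (a * Q : ℕ) := by
  have hinj : Set.InjOn (fun x : ℤ => (x : ZMod Q)) (E : Set ℤ) := by
    intro x hx y hy hxy
    have hx' := hE x hx
    have hy' := hE y hy
    have h1 : ((x - y : ℤ) : ZMod Q) = 0 := by
      push_cast
      exact sub_eq_zero.2 hxy
    rw [ZMod.intCast_zmod_eq_zero_iff_dvd] at h1
    have h2 : |x - y| < Q := by
      rw [abs_lt]
      have : (L : ℤ) < Q := by exact_mod_cast hLQ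
      constructor <;> linarith [hx'.1, hx'.2, hy'.1, hy'.2]
    have h3 := Int.eq_zero_of_abs_lt_dvd h1 h2
    linarith
  have hcard : (E.image (fun x : ℤ => (x : ZMod Q))).card = E.card := card_image_of_injOn hinj
  obtain ⟨T, hT, hT'⟩ := cd hQ E (E.card - 1) (by rw [hcard]; omega) h
  rw [min_eq_left hc] at hT
  haveI : Fact Q.Prime := ⟨hQ⟩
  haveI : NeZero Q := ⟨hQ.ne_zero⟩
  have hTu : T = univ := by
    apply eq_univ_of_card
    apply le_antisymm (card_le_univ T)
    rw [ZMod.card]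
    exact hT
  obtain ⟨l, hl1, hl2, hl3⟩ := hT' 0 (by rw [hTu]; exact mem_univ _)
  rw [ZMod.intCast_zmod_eq_zero_iff_dvd] at hl3
  obtain ⟨c, hc'⟩ := hl3
  have hb : ∀ l : List ℤ, (∀ x ∈ l, x ∈ E) → (l.length : ℤ) ≤ l.sum ∧ l.sum ≤ l.length * L := by
    intro l
    induction l with
    | nil => simp
    | cons x l ih =>
      intro hl
      obtain ⟨h1, h2⟩ := ih (fun y hy => hl y (List.mem_cons_of_mem x hy))
      obtain ⟨h3, h4⟩ := hE x (hl x (List.mem_cons_self))
      rw [List.sum_cons, List.length_cons]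
      push_cast
      constructor
      · linarith
      · linarith
  obtain ⟨hb1, hb2⟩ := hb l hl2
  rw [hl1] at hb1 hb2
  have hQ0 : (0 : ℤ) < Q := by exact_mod_cast hQ.pos
  have hLQ' : (L : ℤ) < Q := by exact_mod_cast hLQ
  have hh' : (1 : ℤ) ≤ h := by exact_mod_cast hh
  have hc1 : 0 < c := by
    by_contra hcon
    push Not at hcon
    have : (Q : ℤ) * c ≤ 0 := mul_nonpos_of_nonneg_of_nonpos hQ0.le hcon
    linarith
  have hc2 : c ≤ h := by
    by_contra hcon
    push Not at hcon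
    have h5 : (Q : ℤ) * (h + 1) ≤ Q * c := by
      apply mul_le_mul_of_nonneg_left (by linarith) hQ0.le
    have h6 : (h : ℤ) * L ≤ h * Q := mul_le_mul_of_nonneg_left hLQ'.le (by linarith)
    nlinarith
  refine ⟨l, hl1, hl2, c.toNat, by omega, by omega, ?_⟩
  rw [hc']
  push_cast
  rw [Int.toNat_of_nonneg hc1.le]
  ring

/-- the list repeated `n` times -/
def rep (n : ℕ) (l : List ℤ) : List ℤ := (List.replicate n l).flatten

theorem rep_length (n : ℕ) (l : List ℤ) : (rep n l).length = n * l.length := by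
  unfold rep
  induction n with
  | zero => simp
  | succ n ih => rw [List.replicate_succ, List.flatten_cons, List.length_append, ih]; ring

theorem rep_sum (n : ℕ) (l : List ℤ) : (rep n l).sum = n * l.sum := by
  unfold rep
  induction n with
  | zero => simp
  | succ n ih =>
    rw [List.replicate_succ, List.flatten_cons, List.sum_append, ih]; push_cast; ring

theorem rep_mem {n : ℕ} {l : List ℤ} {x : ℤ} (h : x ∈ rep n l) : x ∈ l := by
  unfold rep at h
  rw [List.mem_flatten] at h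
  obtain ⟨l', h1, h2⟩ := h
  rw [List.mem_replicate] at h1
  rw [← h1.2]; exact h2

/-- Zero is a sum of exactly `s` elements of `P ∪ R`, if `P ⊆ [1, L]` and `R ⊆ [-L, -1]` have at least `δ L`
elements each, `L` large. -/
theorem zero_sum (δ : ℝ) (hδ : 0 < δ) : ∃ s : ℕ, 1 ≤ s ∧ ∃ L₀ : ℝ, ∀ L : ℕ, L₀ ≤ L → ∀ P R : Finset ℤ,
    (∀ x ∈ P, 1 ≤ x ∧ x ≤ L) → (∀ x ∈ R, -(L : ℤ) ≤ x ∧ x ≤ -1) →
    δ * L ≤ P.card → δ * L ≤ R.card →
    ∃ l : List ℤ, l.length = s ∧ (∀ x ∈ l, x ∈ P ∨ x ∈ R) ∧ l.sum = 0 := by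
  set h : ℕ := ⌈4 / δ⌉₊ + 1 with hh
  refine ⟨h * (2 * h).factorial, ?_, max 1 (4 / δ), ?_⟩
  · have := Nat.factorial_pos (2 * h)
    have : 0 < h * (2 * h).factorial := Nat.mul_pos (by omega) this
    omega
  intro L hL P R hP hR hPc hRc
  have hL1 : (1 : ℝ) ≤ L := (le_max_left _ _).trans hL
  have hL2 : 4 / δ ≤ L := (le_max_right _ _).trans hL
  have hL1' : 1 ≤ L := by exact_mod_cast hL1
  obtain ⟨Q, hQ, hQ1, hQ2⟩ := Nat.exists_prime_lt_and_le_two_mul L (by omega)
  have hδL : 4 ≤ δ * L := by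
    rw [div_le_iff₀ hδ] at hL2
    linarith
  have hh4 : 4 / δ ≤ h := by
    rw [hh]
    push_cast
    linarith [Nat.le_ceil (4 / δ)]
  have hhd : 4 ≤ h * δ := by
    rw [div_le_iff₀ hδ] at hh4
    exact hh4
  -- the condition on the cardinality
  have hcond : ∀ c : ℕ, δ * L ≤ c → Q ≤ h * (c - 1) + 1 ∧ 1 ≤ c := by
    intro c hc
    have hc4 : (4 : ℝ) ≤ c := hδL.trans hc
    have hc4' : 4 ≤ c := by exact_mod_cast hc4
    refine ⟨?_, by omega⟩
    have h1 : (Q : ℝ) ≤ h * (c - 1) + 1 := by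
      have h2 : (Q : ℝ) ≤ 2 * L := by exact_mod_cast hQ2
      have h3 : (c : ℝ) / 2 ≤ c - 1 := by linarith
      have h4 : (h : ℝ) * (c / 2) ≤ h * (c - 1) :=
        mul_le_mul_of_nonneg_left h3 (Nat.cast_nonneg _)
      have h5 : (h : ℝ) * (δ * L / 2) ≤ h * (c / 2) :=
        mul_le_mul_of_nonneg_left (by linarith) (Nat.cast_nonneg _)
      have h6 : 4 * (L : ℝ) / 2 ≤ h * (δ * L / 2) := by
        have : h * (δ * L / 2) = (h * δ) * L / 2 := by ring
        rw [this]
        have : 4 * (L : ℝ) ≤ (h * δ) * L := mul_le_mul_of_nonneg_right hhd (Nat.cast_nonneg _)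
        linarith
      linarith
    have h7 : ((h * (c - 1) + 1 : ℕ) : ℝ) = h * (c - 1) + 1 := by
      push_cast [Nat.cast_sub (by omega : 1 ≤ c)]
      ring
    rw [← h7] at h1
    exact_mod_cast h1
  obtain ⟨hP1, hP2⟩ := hcond P.card hPc
  obtain ⟨hR1, hR2⟩ := hcond R.card hRc
  obtain ⟨l, hl1, hl2, a, ha1, ha2, hl3⟩ := mult hQ hQ1 (by omega) P hP hP1 hP2
  have hR' : ∀ x ∈ R.image (fun x => -x), 1 ≤ x ∧ x ≤ (L : ℤ) := by
    intro x hx
    obtain ⟨y, hy, rfl⟩ := mem_image.1 hx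
    have := hR y hy
    constructor <;> linarith [this.1, this.2]
  have hRc' : (R.image (fun x => -x)).card = R.card := card_image_of_injective _ neg_injective
  obtain ⟨l', hl1', hl2', b, hb1, hb2, hl3'⟩ := mult hQ hQ1 (by omega : 1 ≤ h) (R.image (fun x => -x)) hR'
    (by rw [hRc']; exact hR1) (by rw [hRc']; exact hR2)
  set l'' : List ℤ := l'.map (fun x => -x) with hl''
  have hs'' : l''.sum = -((b * Q : ℕ) : ℤ) := by
    rw [hl'', ← hl3']
    clear_value l''
    clear hl''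
    clear hl1' hl2' hl3'
    induction l' with
    | nil => simp
    | cons x l ih =>
      rw [List.map_cons, List.sum_cons, List.sum_cons, ih]
      ring
  have hm'' : ∀ x ∈ l'', x ∈ R := by
    intro x hx
    obtain ⟨y, hy, rfl⟩ := List.mem_map.1 hx
    obtain ⟨z, hz, hzy⟩ := mem_image.1 (hl2' y hy)
    rw [← hzy]
    simpa using hz
  have hlen'' : l''.length = h := by rw [hl'', List.length_map, hl1']
  obtain ⟨K, hK⟩ := Nat.dvd_factorial (by omega : 0 < a + b) (by omega : a + b ≤ 2 * h)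
  refine ⟨rep K (rep b l ++ rep a l''), ?_, ?_, ?_⟩
  · rw [rep_length, List.length_append, rep_length, rep_length, hl1, hlen'', hK]
    ring
  · intro x hx
    have hx' := rep_mem hx
    rcases List.mem_append.1 hx' with h1 | h1
    · exact Or.inl (hl2 x (rep_mem h1))
    · exact Or.inr (hm'' x (rep_mem h1))
  · rw [rep_sum, List.sum_append, rep_sum, rep_sum, hl3, hs'']
    push_cast
    ring

end Pool.Agent.Helper22S
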