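import Pool.Agent.Y949.DK.SV
import Pool.Agent.Y185.DK.Avg

/-!
# Sums of two primes of a short interval have positive density
-/

set_option autoImplicit false

namespace Pool.Agent.Helper22S

open Finset Filter Topology Pool.Agent.Y851.DK

/-- the `n` in `[1, H]` with `a + n` prime -/
def PS (a H : ℕ) : Finset ℕ := (Icc 1 H).filter (fun n => (a + n).Prime)

/-- their sums -/
def SS (a H : ℕ) : Finset ℕ := ((PS a H) ×ˢ (PS a H)).image (fun z => z.1 + z.2)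

theorem sg_zero' : sg 0 = 0 := by unfold sg; simp

theorem sg_one' : sg 1 = 0 := by unfold sg; simp

theorem sgn_one (m : ℕ) : sgn 1 m = sg m := by
  unfold sgn sg
  apply sum_congr _ fun _ _ => rfl
  apply filter_true_of_mem
  intro p hp h
  exact (Nat.prime_of_mem_primeFactors hp).one_lt.ne' (Nat.dvd_one.1 h)

open Classical in
/-- the number of the representations, from the upper bound sieve -/
theorem rep_le : ∃ C : ℝ, 1 ≤ C ∧ ∀ᶠ Y : ℝ in atTop, ∀ H : ℕ, (H : ℝ) = Y → ∀ a j : ℕ, 1 ≤ j →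
    ((((PS a H) ×ˢ (PS a H)).filter (fun z : ℕ × ℕ => z.1 + z.2 = j)).card : ℝ) ≤
      C * Real.exp (C * (2 * sg (2 * a + j))) * (Y / Real.log Y ^ 2) := by
  obtain ⟨C, hC, hh⟩ := Pool.Agent.Y949.DK.t_SV 2
  refine ⟨C, hC, ?_⟩
  filter_upwards [hh] with Y hY H hH a j hj
  subst hH
  set F : Finset (ℤ × ℤ) := {((1 : ℤ), (a : ℤ)), ((-1 : ℤ), (a : ℤ) + j)} with hF
  have hne : ((1 : ℤ), (a : ℤ)) ≠ ((-1 : ℤ), (a : ℤ) + j) := by
    intro h0
    have := congrArg Prod.fst h0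
    simp only at this
    omega
  have h3 := hY F (by rw [hF, card_pair hne]) (by
      intro f hf
      rw [hF, mem_insert, mem_singleton] at hf
      rcases hf with rfl | rfl <;> simp) (by
      intro f hf g hg hfg
      rw [hF, mem_insert, mem_singleton] at hf hg
      rcases hf with rfl | rfl <;> rcases hg with rfl | rfl
      · exact absurd rfl hfg
      · simp only; omega
      · simp only; omega
      · exact absurd rfl hfg)
  rw [Nat.floor_natCast] at h3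
  have hsum : ∑ f ∈ F, sg f.1.natAbs + ∑ f ∈ F, ∑ g ∈ F,
      sg (f.1 * g.2 - g.1 * f.2).natAbs = 2 * sg (2 * a + j) := by
    rw [hF, sum_pair hne, sum_pair hne, sum_pair hne, sum_pair hne]
    have e0 : (1 : ℤ).natAbs = 1 := rfl
    have e0' : (-1 : ℤ).natAbs = 1 := rfl
    have e1 : ((1 : ℤ) * ((a : ℤ) + j) - (-1) * a).natAbs = 2 * a + j := by omega
    have e2 : ((-1 : ℤ) * (a : ℤ) - 1 * ((a : ℤ) + j)).natAbs = 2 * a + j := by omega
    have e3 : ((1 : ℤ) * (a : ℤ) - 1 * (a : ℤ)).natAbs = 0 := by omega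
    have e4 : ((-1 : ℤ) * ((a : ℤ) + j) - (-1) * ((a : ℤ) + j)).natAbs = 0 := by omega
    simp only [e0, e0', e1, e2, e3, e4, sg_one', sg_zero']
    ring
  rw [hsum] at h3
  refine le_trans ?_ h3
  rw [Nat.cast_le]
  apply card_le_card_of_injOn (fun z : ℕ × ℕ => z.1)
  · intro z hz
    simp only [coe_filter, mem_product, Set.mem_setOf_eq, PS, mem_filter] at hz ⊢
    obtain ⟨⟨⟨h1, h2⟩, h4, h5⟩, h6⟩ := hz
    refine ⟨h1, fun f hf => ?_⟩
    rw [hF, mem_insert, mem_singleton] at hf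
    rcases hf with rfl | rfl
    · have : ((1 : ℤ) * (z.1 : ℤ) + (a : ℤ)).toNat = a + z.1 := by omega
      simp only [this]
      exact h2
    · have : ((-1 : ℤ) * (z.1 : ℤ) + ((a : ℤ) + j)).toNat = a + z.2 := by omega
      simp only [this]
      exact h5
  · intro z hz z' hz' h
    simp only [coe_filter, Set.mem_setOf_eq] at hz hz'
    simp only at h
    have h1 := hz.2
    have h2 := hz'.2
    ext
    · exact h
    · omega

/-- the average of `exp (c sg (2 a + j))` over `j ≤ 2 H` -/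
theorem avg_le (c η : ℝ) (hc : 0 < c) (hη1 : η < 1) (hη : 0 < η) : ∃ C : ℝ, 1 ≤ C ∧ ∃ N₀ : ℕ, ∀ N : ℕ, N₀ ≤ N →
    ∀ a H : ℕ, (N : ℝ) ^ (1 - η) ≤ H → H ≤ N → a ≤ 3 * N ^ 2 →
    ∑ j ∈ Icc 1 (2 * H), Real.exp (c * sg (2 * a + j)) ≤ C * (2 * H : ℕ) := by
  obtain ⟨C, hC, h⟩ := Pool.Agent.Y185.DK.AV.t_AVG c ((1 - η) / 2) hc (by linarith)
  obtain ⟨X₀, hX₀⟩ := h.exists_forall_of_atTop
  refine ⟨C, hC, ⌈X₀⌉₊ + 1, ?_⟩
  intro N hN a H hH1 hH2 ha
  have hN1 : 1 ≤ N := by omega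
  have hN1' : (1 : ℝ) ≤ N := by exact_mod_cast hN1
  have hXN : X₀ ≤ 3 * (N : ℝ) := by
    have h1 := Nat.le_ceil X₀
    have h2 : ((⌈X₀⌉₊ : ℕ) : ℝ) ≤ N := by exact_mod_cast (by omega : ⌈X₀⌉₊ ≤ N)
    linarith
  have hH2' : (H : ℝ) ≤ N := by exact_mod_cast hH2
  have hha : (a : ℝ) ≤ 3 * (N : ℝ) ^ 2 := by exact_mod_cast ha
  have key := hX₀ (3 * N) hXN (2 * H) (by
      have e1 : (3 * (N : ℝ)) ^ ((1 - η) / 2) = 3 ^ ((1 - η) / 2) * (N : ℝ) ^ ((1 - η) / 2) :=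
        Real.mul_rpow (by norm_num) (by positivity)
      have e2 : (3 : ℝ) ^ ((1 - η) / 2) ≤ 2 := by
        have h3 : (3 : ℝ) ^ ((1 - η) / 2) ≤ 3 ^ (1 / 2 : ℝ) :=
          Real.rpow_le_rpow_of_exponent_le (by norm_num) (by linarith)
        rw [← Real.sqrt_eq_rpow] at h3
        have h4 : Real.sqrt 3 ≤ 2 := by
          rw [Real.sqrt_le_left (by norm_num)]; norm_num
        linarith
      have e3 : (N : ℝ) ^ ((1 - η) / 2) ≤ (N : ℝ) ^ (1 - η) :=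
        Real.rpow_le_rpow_of_exponent_le hN1' (by linarith)
      rw [e1]
      push_cast
      have e4 : (0 : ℝ) ≤ (N : ℝ) ^ ((1 - η) / 2) := by positivity
      nlinarith) (by push_cast; linarith) 1 (2 * a + 2 * H + 1) le_rfl (by
      push_cast; nlinarith) (by push_cast; nlinarith)
  refine le_trans (le_of_eq ?_) key
  refine sum_nbij' (fun j => 2 * H + 1 - j) (fun x => 2 * H + 1 - x) ?_ ?_ ?_ ?_ ?_
  · intro j hj
    rw [mem_Icc] at hj ⊢
    omega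
  · intro j hj
    rw [mem_Icc] at hj ⊢
    omega
  · intro j hj
    rw [mem_Icc] at hj
    omega
  · intro j hj
    rw [mem_Icc] at hj
    omega
  · intro j hj
    rw [mem_Icc] at hj
    rw [sgn_one]
    have : ((((1 : ℕ) : ℤ) * ((2 * H + 1 - j : ℕ) : ℤ) - ((2 * a + 2 * H + 1 : ℕ) : ℤ)).natAbs) = 2 * a + j := by
      omega
    rw [this]

/-- The sums of two primes of a short interval with the right order of primes have positive density. -/
theorem sums (c η : ℝ) (hc : 0 < c) (hη : 0 < η) (hη1 : η < 1) : ∃ δ : ℝ, 0 < δ ∧ ∃ N₀ : ℕ, ∀ N : ℕ, N₀ ≤ N →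
    ∀ a H : ℕ, (N : ℝ) ^ (1 - η) ≤ H → H ≤ N → a ≤ 3 * N ^ 2 → c * H / Real.log N ≤ ((PS a H).card : ℝ) →
      δ * (2 * H : ℕ) ≤ ((SS a H).card : ℝ) := by
  classical
  obtain ⟨C1, hC1, h1⟩ := rep_le
  obtain ⟨C2, hC2, N2, h2⟩ := avg_le (4 * C1) η (by linarith) hη1 hη
  obtain ⟨Y₀, hY₀⟩ := h1.exists_forall_of_atTop
  have t1 : Tendsto (fun x : ℝ => x ^ (1 - η)) atTop atTop := tendsto_rpow_atTop (by linarith)
  obtain ⟨x₀, hx₀⟩ := ((t1.eventually_ge_atTop (max Y₀ 3))).exists_forall_of_atTop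
  have hη' : 0 < 1 - η := by linarith
  refine ⟨c ^ 4 * (1 - η) ^ 4 / (4 * C1 ^ 2 * C2), by positivity, max N2 (⌈x₀⌉₊ + 2), ?_⟩
  intro N hN a H hH1 hH2 ha hP
  have hN2 : N2 ≤ N := (le_max_left _ _).trans hN
  have hN3 : ⌈x₀⌉₊ + 2 ≤ N := (le_max_right _ _).trans hN
  have hNx : x₀ ≤ N := by
    have h3 := Nat.le_ceil x₀
    have h4 : ((⌈x₀⌉₊ : ℕ) : ℝ) ≤ N := by exact_mod_cast (by omega : ⌈x₀⌉₊ ≤ N)
    linarith
  have hN2' : (2 : ℝ) ≤ N := by exact_mod_cast (by omega : 2 ≤ N)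
  have hHY := (hx₀ N hNx).trans hH1
  have hHY0 : Y₀ ≤ H := (le_max_left _ _).trans hHY
  have hH3 : (3 : ℝ) ≤ H := (le_max_right _ _).trans hHY
  have hH0 : (0 : ℝ) < H := by linarith
  have hLH : 0 < Real.log H := Real.log_pos (by linarith)
  have hLN : 0 < Real.log N := Real.log_pos (by linarith)
  have hLL : (1 - η) * Real.log N ≤ Real.log H := by
    rw [← Real.log_rpow (by linarith)]
    exact Real.log_le_log (by positivity) hH1
  set r : ℕ → ℝ := fun j => ((((PS a H) ×ˢ (PS a H)).filter (fun z : ℕ × ℕ => z.1 + z.2 = j)).card : ℝ) with hr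
  have hr1 : ∀ j : ℕ, 1 ≤ j → r j ≤ C1 * Real.exp (C1 * (2 * sg (2 * a + j))) * (H / Real.log H ^ 2) :=
    fun j hj => hY₀ H hHY0 H rfl a j hj
  have hr0 : ∀ j, 0 ≤ r j := fun j => Nat.cast_nonneg _
  -- the total
  have htot : ((PS a H).card : ℝ) ^ 2 = ∑ j ∈ SS a H, r j := by
    have h5 := card_eq_sum_card_image (fun z : ℕ × ℕ => z.1 + z.2) ((PS a H) ×ˢ (PS a H))
    rw [card_product] at h5
    rw [hr]
    simp only [SS]
    rw [← Nat.cast_sum, ← h5]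
    push_cast
    ring
  have hCS : (∑ j ∈ SS a H, r j) ^ 2 ≤ ((SS a H).card : ℝ) * ∑ j ∈ SS a H, r j ^ 2 :=
    sq_sum_le_card_mul_sum_sq
  have hsub : SS a H ⊆ Icc 1 (2 * H) := by
    intro j hj
    simp only [SS, PS, mem_image, mem_product, mem_filter, mem_Icc] at hj
    obtain ⟨z, ⟨⟨⟨h6, h7⟩, -⟩, ⟨h8, h9⟩, -⟩, rfl⟩ := hj
    rw [mem_Icc]
    omega
  have hsq : ∑ j ∈ SS a H, r j ^ 2 ≤ (C1 * (H / Real.log H ^ 2)) ^ 2 * (C2 * (2 * H : ℕ)) := by
    calc ∑ j ∈ SS a H, r j ^ 2 ≤ ∑ j ∈ Icc 1 (2 * H), r j ^ 2 :=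
          sum_le_sum_of_subset_of_nonneg hsub fun j _ _ => sq_nonneg _
      _ ≤ ∑ j ∈ Icc 1 (2 * H), (C1 * (H / Real.log H ^ 2)) ^ 2 * Real.exp (4 * C1 * sg (2 * a + j)) := by
          apply sum_le_sum
          intro j hj
          rw [mem_Icc] at hj
          have h5 := hr1 j hj.1
          calc r j ^ 2 ≤ (C1 * Real.exp (C1 * (2 * sg (2 * a + j))) * (H / Real.log H ^ 2)) ^ 2 :=
                pow_le_pow_left₀ (hr0 j) h5 2
            _ = (C1 * (H / Real.log H ^ 2)) ^ 2 * (Real.exp (C1 * (2 * sg (2 * a + j)))) ^ 2 := by ring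
            _ = (C1 * (H / Real.log H ^ 2)) ^ 2 * Real.exp (4 * C1 * sg (2 * a + j)) := by
                rw [← Real.exp_nat_mul]
                congr 2
                push_cast
                ring
      _ = (C1 * (H / Real.log H ^ 2)) ^ 2 * ∑ j ∈ Icc 1 (2 * H), Real.exp (4 * C1 * sg (2 * a + j)) := by
          rw [mul_sum]
      _ ≤ (C1 * (H / Real.log H ^ 2)) ^ 2 * (C2 * (2 * H : ℕ)) := by
          apply mul_le_mul_of_nonneg_left (h2 N hN2 a H hH1 hH2 ha) (sq_nonneg _)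
  -- compare
  have hP4 : (c * H / Real.log N) ^ 4 ≤ ((SS a H).card : ℝ) * ((C1 * (H / Real.log H ^ 2)) ^ 2 * (C2 * (2 * H : ℕ))) := by
    calc (c * H / Real.log N) ^ 4 ≤ ((PS a H).card : ℝ) ^ 4 := pow_le_pow_left₀ (by positivity) hP 4
      _ = (((PS a H).card : ℝ) ^ 2) ^ 2 := by ring
      _ = (∑ j ∈ SS a H, r j) ^ 2 := by rw [htot]
      _ ≤ ((SS a H).card : ℝ) * ∑ j ∈ SS a H, r j ^ 2 := hCS
      _ ≤ _ := mul_le_mul_of_nonneg_left hsq (Nat.cast_nonneg _)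
  have hlog4 : ((1 - η) * Real.log N) ^ 4 ≤ Real.log H ^ 4 := pow_le_pow_left₀ (by positivity) hLL 4
  set s : ℝ := ((SS a H).card : ℝ) with hs
  have hs0 : 0 ≤ s := Nat.cast_nonneg _
  have e5 : (c * H / Real.log N) ^ 4 = c ^ 4 * H ^ 4 / Real.log N ^ 4 := by
    rw [div_pow, mul_pow]
  have e6 : s * ((C1 * (H / Real.log H ^ 2)) ^ 2 * (C2 * (2 * H : ℕ))) = s * (2 * C1 ^ 2 * C2 * H ^ 3) / Real.log H ^ 4 := by
    push_cast
    field_simp
  rw [e5, e6, div_le_div_iff₀ (by positivity) (by positivity)] at hP4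
  -- `c^4 H^4 log^4 H ≤ s (2 C1^2 C2 H^3) log^4 N`
  have h7 : c ^ 4 * (H : ℝ) ^ 4 * ((1 - η) * Real.log N) ^ 4 ≤ s * (2 * C1 ^ 2 * C2 * H ^ 3) * Real.log N ^ 4 := by
    refine le_trans ?_ hP4
    apply mul_le_mul_of_nonneg_left hlog4 (by positivity)
  have h8 : (H : ℝ) ^ 3 * Real.log N ^ 4 * (c ^ 4 * (1 - η) ^ 4 * H) ≤
      (H : ℝ) ^ 3 * Real.log N ^ 4 * (s * (2 * C1 ^ 2 * C2)) := by nlinarith
  have h9 := le_of_mul_le_mul_left h8 (by positivity)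
  push_cast
  rw [div_mul_eq_mul_div, div_le_iff₀ (by positivity)]
  linarith

end Pool.Agent.Helper22S
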