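import Pool.Agent.Helper22S.Exc2
import Pool.Agent.Helper22S.Comb
import Pool.Agent.Helper22S.Sums

/-!
# Bounded numbers of primes between consecutive squares with the mean value `N ^ 2 + N + 1`
-/

set_option autoImplicit false

namespace Pool.Agent.Helper22S

open Finset Filter Topology Pool.Agent.H89B

/-- `k i` and `l i`, `i < s`, have the same sum, lie in `[2, 2 N]` and within `N ^ (1 - η)` of `N`, and all
`N ^ 2 + k i + 1` and `(N + 1) ^ 2 - l i` are prime -/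
def Balanced (s : ℕ) (η : ℝ) (N : ℕ) : Prop :=
  ∃ k l : Fin s → ℕ, ∑ i, k i = ∑ i, l i ∧
    (∀ i, 2 ≤ k i ∧ k i ≤ 2 * N ∧ |(k i : ℝ) - N| ≤ (N : ℝ) ^ (1 - η) ∧ (N ^ 2 + k i + 1).Prime) ∧
    (∀ i, 2 ≤ l i ∧ l i ≤ 2 * N ∧ |(l i : ℝ) - N| ≤ (N : ℝ) ^ (1 - η) ∧ ((N + 1) ^ 2 - l i).Prime)

theorem primesIn_nat (a H : ℕ) : primesIn (a : ℝ) ((a : ℝ) + H) = (PS a H).card := by
  unfold primesIn PS
  rw [← Set.ncard_coe_finset]
  apply Set.ncard_congr (fun r _ => r - a)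
  · rintro r ⟨h1, h2, h3⟩
    have h2' : a < r := by exact_mod_cast h2
    have h3' : r ≤ a + H := by exact_mod_cast h3
    simp only [coe_filter, mem_Icc, Set.mem_ofPred_eq]
    have e : a + (r - a) = r := by omega
    rw [e]
    exact ⟨by omega, h1⟩
  · rintro r r' ⟨h1, h2, h3⟩ ⟨h1', h2', h3'⟩ h
    have h4 : a < r := by exact_mod_cast h2
    have h4' : a < r' := by exact_mod_cast h2'
    omega
  · intro n hn
    simp only [coe_filter, mem_Icc, Set.mem_ofPred_eq] at hn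
    refine ⟨a + n, ⟨hn.2, ?_, ?_⟩, by omega⟩
    · have : a < a + n := by omega
      exact_mod_cast this
    · have : a + n ≤ a + H := by omega
      exact_mod_cast this

/-- from the list of sums of two primes to the functions `k`, `l` -/
theorem build (s H N : ℕ) (hH : H + 2 ≤ N) (e : List ℤ) (he : e.length = s) (hs : e.sum = 0)
    (hm : ∀ x ∈ e, ∃ u v : ℤ, |u| ≤ H ∧ |v| ≤ H ∧ u + v = x ∧ (((N : ℤ) ^ 2 + N + 1 + u).toNat).Prime ∧
      (((N : ℤ) ^ 2 + N + 1 + v).toNat).Prime) :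
    ∃ k l : Fin s → ℕ, ∑ i, k i = ∑ i, l i ∧
      (∀ i, 2 ≤ k i ∧ k i ≤ 2 * N ∧ |(k i : ℝ) - N| ≤ H ∧ (N ^ 2 + k i + 1).Prime) ∧
      (∀ i, 2 ≤ l i ∧ l i ≤ 2 * N ∧ |(l i : ℝ) - N| ≤ H ∧ ((N + 1) ^ 2 - l i).Prime) := by
  subst he
  have hm' : ∀ i : Fin e.length, ∃ u v : ℤ, |u| ≤ H ∧ |v| ≤ H ∧ u + v = e.get i ∧
      (((N : ℤ) ^ 2 + N + 1 + u).toNat).Prime ∧ (((N : ℤ) ^ 2 + N + 1 + v).toNat).Prime :=
    fun i => hm _ (List.get_mem e i)
  choose u v hu hv huv hup hvp using hm'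
  have hHN : (H : ℤ) + 2 ≤ N := by exact_mod_cast hH
  have hu' : ∀ i, -(H : ℤ) ≤ u i ∧ u i ≤ H := fun i => abs_le.1 (hu i)
  have hv' : ∀ i, -(H : ℤ) ≤ v i ∧ v i ≤ H := fun i => abs_le.1 (hv i)
  have hk : ∀ i, (((N + u i).toNat : ℕ) : ℤ) = N + u i := fun i => by
    have := hu' i
    omega
  have hl : ∀ i, (((N - v i).toNat : ℕ) : ℤ) = N - v i := fun i => by
    have := hv' i
    omega
  refine ⟨fun i => (N + u i).toNat, fun i => (N - v i).toNat, ?_, fun i => ?_, fun i => ?_⟩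
  · have h1 : ((∑ i, (N + u i).toNat : ℕ) : ℤ) = ((∑ i, (N - v i).toNat : ℕ) : ℤ) := by
      rw [Nat.cast_sum, Nat.cast_sum, sum_congr rfl fun i _ => hk i, sum_congr rfl fun i _ => hl i,
        sum_add_distrib, sum_sub_distrib]
      have h2 : ∑ i, u i + ∑ i, v i = 0 := by
        rw [← sum_add_distrib, sum_congr rfl fun i _ => huv i]
        rw [← hs]
        exact (List.sum_ofFn (f := e.get)).symm.trans (by rw [List.ofFn_get])
      linarith
    exact_mod_cast h1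
  · have h1 := hu' i
    have h2 := hk i
    beta_reduce
    refine ⟨by omega, by omega, ?_, ?_⟩
    · have h3 : (((N + u i).toNat : ℕ) : ℝ) = N + u i := by exact_mod_cast h2
      rw [h3, add_sub_cancel_left]
      have h4 := hu i
      exact_mod_cast h4
    · have h3 : ((N : ℤ) ^ 2 + N + 1 + u i).toNat = N ^ 2 + (N + u i).toNat + 1 := by
        have : (((N : ℤ) ^ 2 + N + 1 + u i).toNat : ℤ) = N ^ 2 + N + 1 + u i := by
          apply Int.toNat_of_nonneg
          have : (0 : ℤ) ≤ (N : ℤ) ^ 2 := sq_nonneg _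
          omega
        have h5 : (((N : ℤ) ^ 2 + N + 1 + u i).toNat : ℤ) = ((N ^ 2 + (N + u i).toNat + 1 : ℕ) : ℤ) := by
          rw [this]
          push_cast [h2]
          ring
        exact_mod_cast h5
      rw [← h3]
      exact hup i
  · have h1 := hv' i
    have h2 := hl i
    beta_reduce
    refine ⟨by omega, by omega, ?_, ?_⟩
    · have h3 : (((N - v i).toNat : ℕ) : ℝ) = N - v i := by exact_mod_cast h2
      rw [h3]
      have h4 := hv i
      have h5 : ((N : ℝ) - v i) - N = -(v i : ℝ) := by ring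
      rw [h5, abs_neg]
      exact_mod_cast h4
    · have h3 : ((N : ℤ) ^ 2 + N + 1 + v i).toNat = (N + 1) ^ 2 - (N - v i).toNat := by
        have h0 : (0 : ℤ) ≤ (N : ℤ) ^ 2 := sq_nonneg _
        have : (((N : ℤ) ^ 2 + N + 1 + v i).toNat : ℤ) = N ^ 2 + N + 1 + v i := by
          apply Int.toNat_of_nonneg
          omega
        have h6 : (N - v i).toNat ≤ (N + 1) ^ 2 := by
          have : (((N - v i).toNat : ℕ) : ℤ) ≤ (((N + 1) ^ 2 : ℕ) : ℤ) := by
            rw [h2]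
            push_cast
            nlinarith
          exact_mod_cast this
        have h5 : (((N : ℤ) ^ 2 + N + 1 + v i).toNat : ℤ) = (((N + 1) ^ 2 - (N - v i).toNat : ℕ) : ℤ) := by
          rw [this, Nat.cast_sub h6, h2]
          push_cast
          ring
        exact_mod_cast h5
      rw [← h3]
      exact hvp i

/-- the integers with the right order of primes around `N ^ 2 + N + 1` are balanced -/
theorem good (c η : ℝ) (hc : 0 < c) (hη : 0 < η) (hη1 : η < 1) : ∃ s : ℕ, 1 ≤ s ∧ ∃ N₀ : ℕ, ∀ N : ℕ, N₀ ≤ N →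
    RichN c η N → Balanced s (η / 2) N := by
  obtain ⟨δ, hδ, N1, h1⟩ := sums c η hc hη hη1
  obtain ⟨s, hs, L₀, h2⟩ := zero_sum δ hδ
  refine ⟨s, hs, ?_⟩
  have t1 : Tendsto (fun x : ℝ => x ^ (1 - η)) atTop atTop := tendsto_rpow_atTop (by linarith)
  have t2 : Tendsto (fun x : ℝ => x ^ (η / 2)) atTop atTop := tendsto_rpow_atTop (by linarith)
  have hev : ∀ᶠ x : ℝ in atTop, max L₀ 2 ≤ x ^ (1 - η) ∧ 4 ≤ x ^ (η / 2) ∧ 2 ≤ x :=
    (t1.eventually_ge_atTop _).and ((t2.eventually_ge_atTop _).and (eventually_ge_atTop 2))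
  obtain ⟨x₀, hx₀⟩ := hev.exists_forall_of_atTop
  refine ⟨max N1 ⌈x₀⌉₊, ?_⟩
  intro N hN hR
  have hN1 : N1 ≤ N := (le_max_left _ _).trans hN
  have hNx : x₀ ≤ N := (Nat.le_ceil x₀).trans (by exact_mod_cast (le_max_right _ _).trans hN)
  obtain ⟨h3, h4, h5⟩ := hx₀ N hNx
  have hNpos : (0 : ℝ) < N := by linarith
  have hL : L₀ ≤ (N : ℝ) ^ (1 - η) := (le_max_left _ _).trans h3
  have h22 : (2 : ℝ) ≤ (N : ℝ) ^ (1 - η) := (le_max_right _ _).trans h3
  set H : ℕ := ⌈(N : ℝ) ^ (1 - η)⌉₊ with hH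
  have hH1 : (N : ℝ) ^ (1 - η) ≤ H := Nat.le_ceil _
  have hH2 : (H : ℝ) < (N : ℝ) ^ (1 - η) + 1 := Nat.ceil_lt_add_one (by positivity)
  have hmul : (N : ℝ) ^ (1 - η / 2) = (N : ℝ) ^ (1 - η) * (N : ℝ) ^ (η / 2) := by
    rw [← Real.rpow_add hNpos]; congr 1; ring
  have hH3 : 2 * (H : ℝ) ≤ (N : ℝ) ^ (1 - η / 2) := by
    rw [hmul]; nlinarith
  have hNN : (N : ℝ) ^ (1 - η / 2) ≤ N := by
    calc (N : ℝ) ^ (1 - η / 2) ≤ (N : ℝ) ^ (1 : ℝ) :=
          Real.rpow_le_rpow_of_exponent_le (by linarith) (by linarith)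
      _ = N := Real.rpow_one _
  have hH2' : (2 : ℝ) ≤ H := h22.trans hH1
  have hHN : H + 2 ≤ N := by
    have : (H : ℝ) + 2 ≤ N := by linarith
    exact_mod_cast this
  have hlogN : 0 < Real.log N := Real.log_pos (by linarith)
  -- the right half
  have hright : c * H / Real.log N ≤ ((PS (N ^ 2 + N + 1) H).card : ℝ) := by
    rw [← primesIn_nat]
    apply hR _ _ hH1
    · push_cast; nlinarith
    · push_cast; nlinarith
  have hleft : c * H / Real.log N ≤ ((PS (N ^ 2 + N - H) H).card : ℝ) := by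
    rw [← primesIn_nat]
    have e : ((N ^ 2 + N - H : ℕ) : ℝ) = (N : ℝ) ^ 2 + N - H := by
      rw [Nat.cast_sub (by nlinarith)]
      push_cast; ring
    have hHN' : (H : ℝ) + 2 ≤ N := by exact_mod_cast hHN
    apply hR _ _ hH1
    · rw [e]; linarith
    · rw [e]; nlinarith
  have hNN2 : N ≤ N ^ 2 := by nlinarith
  have hN2 : 2 ≤ N := by omega
  have sR := h1 N hN1 (N ^ 2 + N + 1) H hH1 (by omega) (by nlinarith) hright
  have sL := h1 N hN1 (N ^ 2 + N - H) H hH1 (by omega) (by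
    have : N ^ 2 + N - H ≤ N ^ 2 + N := Nat.sub_le _ _
    nlinarith) hleft
  -- the two sets
  set P : Finset ℤ := (SS (N ^ 2 + N + 1) H).image (fun j : ℕ => (j : ℤ)) with hP
  set R : Finset ℤ := (SS (N ^ 2 + N - H) H).image (fun j : ℕ => (j : ℤ) - (2 * H + 2)) with hRR
  have hPc : P.card = (SS (N ^ 2 + N + 1) H).card := card_image_of_injective _ Nat.cast_injective
  have hRc : R.card = (SS (N ^ 2 + N - H) H).card := by
    apply card_image_of_injective
    intro x y h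
    simp only at h
    omega
  have hSS : ∀ a j : ℕ, j ∈ SS a H → ∃ x y : ℕ, 1 ≤ x ∧ x ≤ H ∧ 1 ≤ y ∧ y ≤ H ∧ x + y = j ∧ (a + x).Prime ∧
      (a + y).Prime := by
    intro a j hj
    simp only [SS, PS, mem_image, mem_product, mem_filter, mem_Icc] at hj
    obtain ⟨z, ⟨⟨⟨h6, h7⟩, h8⟩, ⟨h9, h10⟩, h11⟩, h12⟩ := hj
    exact ⟨z.1, z.2, h6, h7, h9, h10, h12, h8, h11⟩
  obtain ⟨e, he1, he2, he3⟩ := h2 (2 * H) (by push_cast; linarith) P R (by
      intro x hx
      obtain ⟨j, hj, rfl⟩ := mem_image.1 hx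
      obtain ⟨u, v, h6, h7, h8, h9, h10, -, -⟩ := hSS _ _ hj
      push_cast
      constructor <;> omega) (by
      intro x hx
      obtain ⟨j, hj, rfl⟩ := mem_image.1 hx
      obtain ⟨u, v, h6, h7, h8, h9, h10, -, -⟩ := hSS _ _ hj
      push_cast
      constructor <;> omega) (by rw [hPc]; exact sR) (by rw [hRc]; exact sL)
  obtain ⟨k, l, hkl, hk, hl⟩ := build s H N hHN e he1 he3 (by
    intro x hx
    rcases he2 x hx with hx | hx
    · obtain ⟨j, hj, rfl⟩ := mem_image.1 hx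
      obtain ⟨u, v, h6, h7, h8, h9, h10, h11, h12⟩ := hSS _ _ hj
      refine ⟨u, v, ?_, ?_, by omega, ?_, ?_⟩
      · rw [abs_of_nonneg (by omega)]; omega
      · rw [abs_of_nonneg (by omega)]; omega
      · have : ((N : ℤ) ^ 2 + N + 1 + u).toNat = N ^ 2 + N + 1 + u := by
          have : ((N : ℤ) ^ 2 + N + 1 + u) = ((N ^ 2 + N + 1 + u : ℕ) : ℤ) := by push_cast; ring
          rw [this, Int.toNat_natCast]
        rw [this]; exact h11
      · have : ((N : ℤ) ^ 2 + N + 1 + v).toNat = N ^ 2 + N + 1 + v := by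
          have : ((N : ℤ) ^ 2 + N + 1 + v) = ((N ^ 2 + N + 1 + v : ℕ) : ℤ) := by push_cast; ring
          rw [this, Int.toNat_natCast]
        rw [this]; exact h12
    · obtain ⟨j, hj, rfl⟩ := mem_image.1 hx
      obtain ⟨u, v, h6, h7, h8, h9, h10, h11, h12⟩ := hSS _ _ hj
      have hsub : H ≤ N ^ 2 + N := by omega
      refine ⟨(u : ℤ) - (H + 1), (v : ℤ) - (H + 1), ?_, ?_, by omega, ?_, ?_⟩
      · rw [abs_le]; constructor <;> omega
      · rw [abs_le]; constructor <;> omega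
      · have : ((N : ℤ) ^ 2 + N + 1 + ((u : ℤ) - (H + 1))).toNat = N ^ 2 + N - H + u := by
          have : ((N : ℤ) ^ 2 + N + 1 + ((u : ℤ) - (H + 1))) = ((N ^ 2 + N - H + u : ℕ) : ℤ) := by
            push_cast [Nat.cast_sub hsub]; ring
          rw [this, Int.toNat_natCast]
        rw [this]; exact h11
      · have : ((N : ℤ) ^ 2 + N + 1 + ((v : ℤ) - (H + 1))).toNat = N ^ 2 + N - H + v := by
          have : ((N : ℤ) ^ 2 + N + 1 + ((v : ℤ) - (H + 1))) = ((N ^ 2 + N - H + v : ℕ) : ℤ) := by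
            push_cast [Nat.cast_sub hsub]; ring
          rw [this, Int.toNat_natCast]
        rw [this]; exact h12)
  have hHle : (H : ℝ) ≤ (N : ℝ) ^ (1 - η / 2) := by linarith
  exact ⟨k, l, hkl, fun i => ⟨(hk i).1, (hk i).2.1, (hk i).2.2.1.trans hHle, (hk i).2.2.2⟩,
    fun i => ⟨(hl i).1, (hl i).2.1, (hl i).2.2.1.trans hHle, (hl i).2.2.2⟩⟩

open Classical in
/-- There are an absolute number `s` and `η, C > 0` such that for all but at most `C X ^ 0.612` of the `1 ≤ N ≤ X`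
the integer `N` is balanced. -/
theorem main : ∃ (s : ℕ) (η C : ℝ), 1 ≤ s ∧ 0 < η ∧ 0 < C ∧ ∀ X : ℝ, 1 ≤ X →
    (((Icc 1 ⌊X⌋₊).filter (fun N => ¬ Balanced s η N)).card : ℝ) ≤ C * X ^ (0.612 : ℝ) := by
  obtain ⟨c, η, C, hc, hη, hη1, hC, h⟩ := exceptional
  obtain ⟨s, hs, N₀, hg⟩ := good c η hc hη hη1
  refine ⟨s, η / 2, C + (N₀ + 1), hs, by linarith, by positivity, ?_⟩
  intro X hX
  set B := (Icc 1 ⌊X⌋₊).filter (fun N => ¬ Balanced s (η / 2) N) with hB
  have h1 : B.card ≤ (B.filter (fun N => N < N₀)).card + (B.filter (fun N => ¬ N < N₀)).card := by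
    rw [card_filter_add_card_filter_not]
  have h2 : (B.filter (fun N => N < N₀)).card ≤ N₀ := by
    have : (B.filter (fun N => N < N₀)) ⊆ range N₀ := fun N hN => mem_range.2 (mem_filter.1 hN).2
    simpa using card_le_card this
  have h3 := h X hX (B.filter (fun N => ¬ N < N₀)) (by
    intro N hN
    obtain ⟨h4, h5⟩ := mem_filter.1 hN
    obtain ⟨h6, h7⟩ := mem_filter.1 h4
    rw [mem_Icc] at h6
    refine ⟨(Nat.le_floor_iff (by linarith)).1 h6.2, h6.1, fun h8 => h7 (hg N (by omega) h8)⟩)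
  have h4 : (B.card : ℝ) ≤ N₀ + C * X ^ (0.612 : ℝ) := by
    have h5 : (B.card : ℝ) ≤ ((B.filter (fun N => N < N₀)).card : ℝ) + ((B.filter (fun N => ¬ N < N₀)).card : ℝ) := by
      exact_mod_cast h1
    have h6 : ((B.filter (fun N => N < N₀)).card : ℝ) ≤ N₀ := by exact_mod_cast h2
    linarith
  have hX1 : (1 : ℝ) ≤ X ^ (0.612 : ℝ) := Real.one_le_rpow hX (by norm_num)
  have hN0 : (0 : ℝ) ≤ N₀ := Nat.cast_nonneg _
  nlinarith

end Pool.Agent.Helper22S
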